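import Mathlib

set_option autoImplicit false

/-!
# Continuous first-order logic for metric structures

Signatures, structures, formulas, theories, types, stability, definable predicates and
`d`-definable sets.
-/

open Cardinal
open scoped unitInterval

noncomputable section

namespace Pool.Agent.W879.CL

/-- A signature: function symbols and predicate symbols, each with an arity and a modulus of
uniform continuity. -/
structure Signature where
  Fn : Type
  fnArity : Fn → ℕ
  fnMod : Fn → ℝ → ℝ
  fnMod_pos : ∀ (f : Fn) (ε : ℝ), 0 < ε → 0 < fnMod f ε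
  Pr : Type
  prArity : Pr → ℕ
  prMod : Pr → ℝ → ℝ
  prMod_pos : ∀ (P : Pr) (ε : ℝ), 0 < ε → 0 < prMod P ε

/-- A metric structure: a nonempty complete metric space of diameter at most one, in which the
function symbols are interpreted by operations and the predicate symbols by `[0,1]`-valued
predicates which obey the moduli of uniform continuity. -/
structure MStr (L : Signature) where
  X : Type
  [met : MetricSpace X]
  [compl : CompleteSpace X]
  [ne : Nonempty X]
  dist_le : ∀ x y : X, dist x y ≤ 1
  fn : (f : L.Fn) → (Fin (L.fnArity f) → X) → X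
  fn_unif : ∀ (f : L.Fn) (ε : ℝ), 0 < ε → ∀ v w : Fin (L.fnArity f) → X,
    (∀ i, dist (v i) (w i) < L.fnMod f ε) → dist (fn f v) (fn f w) ≤ ε
  pr : (P : L.Pr) → (Fin (L.prArity P) → X) → I
  pr_unif : ∀ (P : L.Pr) (ε : ℝ), 0 < ε → ∀ v w : Fin (L.prArity P) → X,
    (∀ i, dist (v i) (w i) < L.prMod P ε) → dist (pr P v) (pr P w) ≤ ε

attribute [instance] MStr.met MStr.compl MStr.ne

/-- Terms with variables `x_0, ..., x_{n-1}` and parameters from `C`. -/
inductive Tm (L : Signature) (C : Type) (n : ℕ) : Type
  | var : Fin n → Tm L C n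
  | par : C → Tm L C n
  | fn (f : L.Fn) : (Fin (L.fnArity f) → Tm L C n) → Tm L C n

/-- Formulas with free variables `x_0, ..., x_{n-1}` and parameters from `C`: distances of terms,
predicates applied to terms, continuous connectives `[0,1]^k → [0,1]`, and the quantifiers `sup`
and `inf` (over the last variable). -/
inductive Fm (L : Signature) (C : Type) : ℕ → Type
  | dist {n : ℕ} : Tm L C n → Tm L C n → Fm L C n
  | pr {n : ℕ} (P : L.Pr) : (Fin (L.prArity P) → Tm L C n) → Fm L C n
  | conn {n k : ℕ} : C(Fin k → I, I) → (Fin k → Fm L C n) → Fm L C n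
  | sup {n : ℕ} : Fm L C (n + 1) → Fm L C n
  | inf {n : ℕ} : Fm L C (n + 1) → Fm L C n

variable {L : Signature} {C : Type}

/-- The value of a term in `M`, for the values `c` of the parameters and `x` of the variables. -/
def Tm.val (M : MStr L) (c : C → M.X) {n : ℕ} (x : Fin n → M.X) : Tm L C n → M.X
  | .var i => x i
  | .par a => c a
  | .fn f ts => M.fn f (fun i => (ts i).val M c x)

/-- The value of a formula in `M`, for the values `c` of the parameters and `x` of the free
variables. -/
def Fm.val (M : MStr L) (c : C → M.X) : {n : ℕ} → Fm L C n → (Fin n → M.X) → I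
  | _, .dist s t, x => ⟨Dist.dist (s.val M c x) (t.val M c x), dist_nonneg, M.dist_le _ _⟩
  | _, .pr P ts, x => M.pr P (fun i => (ts i).val M c x)
  | _, .conn u φ, x => u (fun i => (φ i).val M c x)
  | _, .sup φ, x => ⨆ a : M.X, φ.val M c (Fin.snoc (α := fun _ => M.X) x a)
  | _, .inf φ, x => ⨅ a : M.X, φ.val M c (Fin.snoc (α := fun _ => M.X) x a)

/-- The value of a sentence without parameters. -/
def sval (M : MStr L) (φ : Fm L Empty 0) : I := φ.val M Empty.elim Fin.elim0

/-- `M` is a model of the theory `T`, a set of closed conditions `φ = 0`. -/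
def IsModel (T : Set (Fm L Empty 0)) (M : MStr L) : Prop := ∀ φ ∈ T, sval M φ = 0

/-- A theory is complete if it has a model and every sentence has the same value in all its
models. -/
def IsComplete (T : Set (Fm L Empty 0)) : Prop :=
  (∃ M : MStr L, IsModel T M) ∧
    ∀ M N : MStr L, IsModel T M → IsModel T N → ∀ φ : Fm L Empty 0, sval M φ = sval N φ

/-- For a set `A` of elements of `M`: the models of the theory of `(M, a)_{a ∈ A}`. -/
structure Ext (M : MStr L) (A : Set M.X) where
  N : MStr L
  i : A → N.X
  elem : ∀ φ : Fm L A 0, φ.val N i Fin.elim0 = φ.val M Subtype.val Fin.elim0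

/-- The type over `A` of a tuple of a model of the theory of `(M, a)_{a ∈ A}`. -/
def Ext.tp {M : MStr L} {A : Set M.X} (E : Ext M A) {n : ℕ} (x : Fin n → E.N.X) :
    Fm L A n → I := fun φ => φ.val E.N E.i x

/-- The complete `n`-types over `A`. -/
def Types (M : MStr L) (A : Set M.X) (n : ℕ) : Set (Fm L A n → I) :=
  {p | ∃ (E : Ext M A) (x : Fin n → E.N.X), E.tp x = p}

/-- The type over `A` of a tuple of `M` itself. -/
def tpIn (M : MStr L) (A : Set M.X) {n : ℕ} (x : Fin n → M.X) : Fm L A n → I :=
  fun φ => φ.val M Subtype.val x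

/-- The metric on types: the infimum of the distances of realizations of `p` and `q`. -/
def typeDist (M : MStr L) (A : Set M.X) {n : ℕ} (p q : Fm L A n → I) : ENNReal :=
  ⨅ (E : Ext M A) (x : Fin n → E.N.X) (y : Fin n → E.N.X) (_ : E.tp x = p) (_ : E.tp y = q),
    edist x y

/-- `A` has density character at most `lam`. -/
def DensLe {X : Type} [MetricSpace X] (A : Set X) (lam : Cardinal.{0}) : Prop :=
  ∃ D ⊆ A, #D ≤ lam ∧ A ⊆ closure D

/-- `T` is `lam`-stable: over each set of parameters of density character at most `lam` in a model,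
the spaces of types have density character at most `lam` for the metric on types. -/
def StableIn (T : Set (Fm L Empty 0)) (lam : Cardinal.{0}) : Prop :=
  ∀ M : MStr L, IsModel T M → ∀ A : Set M.X, DensLe A lam → ∀ n : ℕ,
    ∃ D ⊆ Types M A n, #D ≤ lam ∧
      ∀ p ∈ Types M A n, ∀ ε : ENNReal, 0 < ε → ∃ q ∈ D, typeDist M A p q < ε

/-- The formula `φ(x, y)` is stable in `T`: it does not have the order property in a model
of `T`. -/
def StableFormula (T : Set (Fm L Empty 0)) {n m : ℕ} (φ : Fm L Empty (n + m)) : Prop :=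
  ∀ M : MStr L, IsModel T M → ∀ (a : ℕ → Fin n → M.X) (b : ℕ → Fin m → M.X) (r s : ℝ), r < s →
    ¬ ∀ i j : ℕ, i < j → (φ.val M Empty.elim (Fin.append (a i) (b j)) : ℝ) ≤ r ∧
      s ≤ (φ.val M Empty.elim (Fin.append (a j) (b i)) : ℝ)

/-- `f` is a definable predicate on `M^n` over `A`: a uniform limit of formulas with parameters
from `A`. -/
def DefPred (M : MStr L) (A : Set M.X) {n : ℕ} (f : (Fin n → M.X) → ℝ) : Prop :=
  ∀ ε : ℝ, 0 < ε → ∃ φ : Fm L A n, ∀ x, |f x - (φ.val M Subtype.val x : ℝ)| ≤ ε

/-- The closed set `D ⊆ M^n` is `d`-definable in `M` over `A`: the distance to `D` is a definable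
predicate over `A`. (The empty set is `d`-definable.) -/
def DDefinable (M : MStr L) (A : Set M.X) {n : ℕ} (D : Set (Fin n → M.X)) : Prop :=
  IsClosed D ∧ DefPred M A (fun x => Metric.infDist x D)

/-- `T` has enough `d`-definable sets: for every model `M`, every `A ⊆ M` and every complete type
`p` over `A`, the set of realizations of `p` in `M` is an intersection of sets which are
`d`-definable in `M` over `A`. -/
def EnoughDDefinable (T : Set (Fm L Empty 0)) : Prop :=
  ∀ M : MStr L, IsModel T M → ∀ (A : Set M.X) (n : ℕ), ∀ p ∈ Types M A n,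
    ∃ 𝒟 : Set (Set (Fin n → M.X)), (∀ D ∈ 𝒟, DDefinable M A D) ∧
      {x | tpIn M A x = p} = ⋂₀ 𝒟

end Pool.Agent.W879.CL
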