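import Pool.Agent.W879.CL.Proof

set_option autoImplicit false

open Cardinal Filter
open scoped unitInterval

noncomputable section

namespace Pool.Agent.W879.CL

/-! ### The model -/

/-- points: a value and a number -/
@[ext] structure Pt where
  v : I
  k : ℕ

open Classical in
instance : MetricSpace Pt where
  dist x y := if x = y then 0 else 1
  dist_self x := by simp
  dist_comm x y := by simp only [eq_comm]
  dist_triangle x y z := by
    by_cases h1 : x = y
    · subst h1; simp
    · by_cases h2 : y = z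
      · subst h2; simp
      · rw [if_neg h1, if_neg h2]
        split_ifs <;> norm_num
  eq_of_dist_eq_zero := by
    intro x y h
    by_contra hne
    have : (if x = y then (0 : ℝ) else 1) = 0 := h
    rw [if_neg hne] at this
    exact one_ne_zero this

open Classical in
theorem dist_pt (x y : Pt) : dist x y = if x = y then 0 else 1 := rfl

theorem pt_disc (x y : Pt) : dist x y = 0 ∨ dist x y = 1 := by
  rw [dist_pt]; split_ifs <;> simp

instance : CompleteSpace Pt := by
  refine Metric.complete_of_cauchySeq_tendsto fun u hu => ?_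
  obtain ⟨N, hN⟩ := Metric.cauchySeq_iff.1 hu 1 one_pos
  refine ⟨u N, tendsto_atTop_of_eventually_const (i₀ := N) fun n hn => ?_⟩
  have h := hN n hn N le_rfl
  rcases pt_disc (u n) (u N) with h0 | h0
  · exact dist_eq_zero.1 h0
  · rw [h0] at h
    exact absurd h (lt_irrefl _)

instance : Nonempty Pt := ⟨⟨0, 0⟩⟩

theorem dist_I_le (a b : I) : dist a b ≤ 1 := by
  rw [Subtype.dist_eq, Real.dist_eq, abs_le]
  constructor <;> linarith [a.2.1, a.2.2, b.2.1, b.2.2]

/-- the discrete space of points with the predicate `v` -/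
def M0 : MStr L0 where
  X := Pt
  dist_le x y := by
    rcases pt_disc x y with h | h <;> rw [h]
    exact zero_le_one
  fn := fun f => f.elim
  fn_unif := fun f => f.elim
  pr := fun _ w => (w (0 : Fin 1)).v
  pr_unif := by
    intro P ε hε v w h
    by_cases h1 : ε ≤ 1
    · have h2 : dist (v (0 : Fin 1)) (w (0 : Fin 1)) < ε := h (0 : Fin 1)
      rcases pt_disc (v (0 : Fin 1)) (w (0 : Fin 1)) with h0 | h0
      · rw [dist_eq_zero.1 h0, dist_self]
        exact hε.le
      · rw [h0] at h2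
        exact absurd h2 (not_lt.2 h1)
    · exact (dist_I_le _ _).trans (not_le.1 h1).le

theorem PV_M0 (x : Pt) : PV M0 x = x.v := rfl

theorem exists_new (r : I) {F : Set Pt} (hF : F.Finite) : ∃ k : ℕ, (⟨r, k⟩ : Pt) ∉ F := by
  have hinf : (Set.range fun k : ℕ => (⟨r, k⟩ : Pt)).Infinite :=
    Set.infinite_range_of_injective fun a b h => congrArg Pt.k h
  obtain ⟨x, ⟨k, rfl⟩, hx⟩ := hinf.exists_notMem_finite hF
  exact ⟨k, hx⟩

theorem gen_M0 : Gen M0 where
  disc := pt_disc
  ext r ε hε F hF := by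
    obtain ⟨k, hk⟩ := exists_new r hF
    refine ⟨⟨r, k⟩, hk, ?_⟩
    rw [PV_M0]
    simpa using hε

/-- the theory -/
def T0 : Set (Fm L0 Empty 0) := {φ | sval M0 φ = 0}

theorem I_bot : (⊥ : I) = 0 := rfl

theorem sup_eq_zero {L : Signature} {C : Type} (M : MStr L) (c : C → M.X) {n : ℕ}
    (φ : Fm L C (n + 1)) (x : Fin n → M.X) : (Fm.sup φ).val M c x = 0 ↔
      ∀ a, φ.val M c (Fin.snoc (α := fun _ => M.X) x a) = 0 := by
  show (⨆ a : M.X, φ.val M c (Fin.snoc (α := fun _ => M.X) x a)) = 0 ↔ _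
  rw [← I_bot, iSup_eq_bot]

/-- the supremum over all variables -/
def supN {L : Signature} {C : Type} : (k : ℕ) → Fm L C k → Fm L C 0
  | 0, φ => φ
  | k + 1, φ => supN k (.sup φ)

theorem supN_eq_zero {L : Signature} {C : Type} (M : MStr L) (c : C → M.X) : ∀ (k : ℕ)
    (φ : Fm L C k), (supN k φ).val M c Fin.elim0 = 0 ↔ ∀ x, φ.val M c x = 0
  | 0, φ => by
    constructor
    · intro h x
      rw [show x = Fin.elim0 from Subsingleton.elim _ _]
      exact h
    · intro h
      exact h _
  | k + 1, φ => by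
    show (supN k (.sup φ)).val M c Fin.elim0 = 0 ↔ _
    rw [supN_eq_zero M c k]
    constructor
    · intro h x
      have h1 := (sup_eq_zero M c φ _).1 (h (Fin.init x)) (x (Fin.last k))
      rwa [Fin.snoc_init_self] at h1
    · intro h x
      rw [sup_eq_zero]
      intro a
      exact h _

/-- `min (d, 1 - d)` -/
def u1 : C(Fin 1 → I, I) where
  toFun v := min (v 0) (σ (v 0))
  continuous_toFun := by
    refine Continuous.min (continuous_apply 0) ?_
    exact unitInterval.continuous_symm.comp (continuous_apply 0)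

/-- the metric has the values `0` and `1` -/
def sDisc : Fm L0 Empty 2 := .conn u1 fun _ => .dist (.var 0) (.var 1)

theorem sDisc_iff (M : MStr L0) (x : Fin 2 → M.X) :
    sDisc.val M Empty.elim x = 0 ↔ dist (x 0) (x 1) = 0 ∨ dist (x 0) (x 1) = 1 := by
  have h0 : sDisc.val M Empty.elim x =
      min (⟨dist (x 0) (x 1), dist_nonneg, M.dist_le _ _⟩ : I)
        (σ ⟨dist (x 0) (x 1), dist_nonneg, M.dist_le _ _⟩) := rfl
  rw [h0]
  set d : I := ⟨dist (x 0) (x 1), dist_nonneg, M.dist_le _ _⟩ with hd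
  have h1 : dist (x 0) (x 1) = (d : ℝ) := rfl
  rw [h1]
  constructor
  · intro h
    rcases min_choice d (σ d) with h2 | h2
    · rw [h2] at h
      left
      rw [h]; rfl
    · rw [h2] at h
      right
      have h3 : ((σ d : I) : ℝ) = 0 := by rw [h]; rfl
      rw [unitInterval.coe_symm_eq] at h3
      linarith
  · rintro (h | h)
    · have h2 : d = 0 := Subtype.ext h
      rw [h2]
      exact min_eq_left (Subtype.coe_le_coe.1 (by simp))
    · have h2 : d = 1 := Subtype.ext h
      rw [h2, unitInterval.symm_one]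
      exact min_eq_right (Subtype.coe_le_coe.1 (by simp))

/-- `1 - (1 - |v_0 - r|) v_1 ... v_k` -/
def u2 (r : I) (k : ℕ) : C(Fin (k + 1) → I, I) where
  toFun v := ⟨1 - (1 - |(v 0 : ℝ) - r|) * ∏ i : Fin k, (v i.succ : ℝ), by
    have h1 : 0 ≤ 1 - |(v 0 : ℝ) - r| := by
      have := dist_I_le (v 0) r
      rw [Subtype.dist_eq, Real.dist_eq] at this
      linarith
    have h2 : 1 - |(v 0 : ℝ) - r| ≤ 1 := by linarith [abs_nonneg ((v 0 : ℝ) - r)]
    have h3 : 0 ≤ ∏ i : Fin k, (v i.succ : ℝ) := Finset.prod_nonneg fun i _ => (v i.succ).2.1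
    have h4 : ∏ i : Fin k, (v i.succ : ℝ) ≤ 1 :=
      Finset.prod_le_one (fun i _ => (v i.succ).2.1) fun i _ => (v i.succ).2.2
    constructor
    · have := mul_le_one₀ h2 h3 h4
      linarith
    · have := mul_nonneg h1 h3
      linarith⟩
  continuous_toFun := by
    refine Continuous.subtype_mk ?_ _
    refine continuous_const.sub (Continuous.mul ?_ ?_)
    · exact continuous_const.sub
        (((continuous_subtype_val.comp (continuous_apply 0)).sub continuous_const).abs)
    · exact continuous_finsetProd _ fun i _ => continuous_subtype_val.comp (continuous_apply _)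

/-- there is a new point with value near `r` -/
def sExt (r : I) (k : ℕ) : Fm L0 Empty k :=
  .inf (.conn (u2 r k) (Fin.cons (.pr () fun _ => .var (Fin.last k))
    fun i => .dist (.var (Fin.last k)) (.var i.castSucc)))

theorem sExt_val (M : MStr L0) (r : I) (k : ℕ) (y : Fin k → M.X) :
    (sExt r k).val M Empty.elim y = ⨅ a : M.X, (⟨1 - (1 - |(PV M a : ℝ) - r|) *
      ∏ i : Fin k, dist a (y i), by
        have := ((u2 r k) (Fin.cons (PV M a) fun i => ⟨dist a (y i), dist_nonneg,
          M.dist_le _ _⟩)).2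
        simpa [u2] using this⟩ : I) := by
  show (⨅ a : M.X, u2 r k (fun j => Fm.val M Empty.elim (_ : Fm L0 Empty (k + 1)) _)) = _
  refine iInf_congr fun a => ?_
  apply Subtype.ext
  simp only [u2, ContinuousMap.coe_mk]
  congr 1
  congr 1
  · congr 2
    simp only [Fin.cons_zero]
    show ((M.pr () fun _ => (Fin.snoc (α := fun _ => M.X) y a) (Fin.last k) : I) : ℝ) - r = _
    rw [Fin.snoc_last]
    rfl
  · refine Finset.prod_congr rfl fun i _ => ?_
    simp only [Fin.cons_succ]
    show dist ((Fin.snoc (α := fun _ => M.X) y a) (Fin.last k))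
      ((Fin.snoc (α := fun _ => M.X) y a) i.castSucc) = _
    rw [Fin.snoc_last, Fin.snoc_castSucc]

theorem sDisc_mem : supN 2 sDisc ∈ T0 := by
  show (supN 2 sDisc).val M0 Empty.elim Fin.elim0 = 0
  rw [supN_eq_zero]
  intro x
  rw [sDisc_iff]
  exact pt_disc _ _

theorem sExt_mem (r : I) (k : ℕ) : supN k (sExt r k) ∈ T0 := by
  show (supN k (sExt r k)).val M0 Empty.elim Fin.elim0 = 0
  rw [supN_eq_zero]
  intro y
  rw [sExt_val]
  obtain ⟨m, hm⟩ := exists_new r (Set.finite_range y)
  refine le_antisymm ((iInf_le _ (⟨r, m⟩ : Pt)).trans ?_) (Subtype.coe_le_coe.1 (by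
    simpa using (_ : I).2.1))
  rw [← Subtype.coe_le_coe]
  have h1 : ∏ i : Fin k, dist (⟨r, m⟩ : Pt) (y i) = 1 := by
    refine Finset.prod_eq_one fun i _ => ?_
    rcases pt_disc ⟨r, m⟩ (y i) with h | h
    · exact absurd ⟨i, (dist_eq_zero.1 h).symm⟩ hm
    · exact h
  show 1 - (1 - |(PV M0 (⟨r, m⟩ : Pt) : ℝ) - r|) * ∏ i : Fin k, dist (⟨r, m⟩ : Pt) (y i) ≤ 0
  rw [h1, PV_M0]
  simp

theorem gen_of_model {N : MStr L0} (hN : IsModel T0 N) : Gen N where
  disc x y := by
    have h1 : (supN 2 sDisc).val N Empty.elim Fin.elim0 = 0 := hN _ sDisc_mem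
    rw [supN_eq_zero] at h1
    have h2 := (sDisc_iff N _).1 (h1 ![x, y])
    simpa using h2
  ext r ε hε F hF := by
    classical
    let k := hF.toFinset.card
    let e := hF.toFinset.equivFin
    let y : Fin k → N.X := fun i => (e.symm i).1
    have hy : ∀ x ∈ F, ∃ i, y i = x := by
      intro x hx
      refine ⟨e ⟨x, hF.mem_toFinset.2 hx⟩, ?_⟩
      simp [y]
    have h1 : (supN k (sExt r k)).val N Empty.elim Fin.elim0 = 0 := hN _ (sExt_mem r k)
    rw [supN_eq_zero] at h1
    have h2 := h1 y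
    rw [sExt_val] at h2
    have hε' : 0 < min ε 1 := lt_min hε one_pos
    have h3 : (⨅ a : N.X, (⟨1 - (1 - |(PV N a : ℝ) - r|) *
      ∏ i : Fin k, dist a (y i), by
        have := ((u2 r k) (Fin.cons (PV N a) fun i => ⟨dist a (y i), dist_nonneg,
          N.dist_le _ _⟩)).2
        simpa [u2] using this⟩ : I)) < ⟨min ε 1, hε'.le, min_le_right _ _⟩ := by
      rw [h2]
      exact Subtype.coe_lt_coe.1 hε'
    obtain ⟨a, ha⟩ := iInf_lt_iff.1 h3
    have ha' : 1 - (1 - |(PV N a : ℝ) - r|) * ∏ i : Fin k, dist a (y i) < min ε 1 :=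
      Subtype.coe_lt_coe.2 ha
    have h4 : 0 ≤ 1 - |(PV N a : ℝ) - r| := by
      have := dist_I_le (PV N a) r
      rw [Subtype.dist_eq, Real.dist_eq] at this
      linarith
    have h5 : 0 ≤ ∏ i : Fin k, dist a (y i) := Finset.prod_nonneg fun i _ => dist_nonneg
    have h6 : ∏ i : Fin k, dist a (y i) ≤ 1 :=
      Finset.prod_le_one (fun i _ => dist_nonneg) fun i _ => N.dist_le _ _
    refine ⟨a, fun haF => ?_, ?_⟩
    · obtain ⟨i, hi⟩ := hy a haF
      have h7 : ∏ i : Fin k, dist a (y i) = 0 :=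
        Finset.prod_eq_zero (Finset.mem_univ i) (by rw [hi, dist_self])
      rw [h7] at ha'
      have := min_le_right ε 1
      linarith
    · have h7 : (1 - |(PV N a : ℝ) - r|) * ∏ i : Fin k, dist a (y i) ≤ 1 - |(PV N a : ℝ) - r| :=
        mul_le_of_le_one_right h4 h6
      have := min_le_left ε 1
      linarith

theorem eq_of_close {a b : I} (h : ∀ ε : ℝ, 0 < ε → |(a : ℝ) - b| ≤ ε) : a = b := by
  apply Subtype.ext
  by_contra hne
  have h1 : 0 < |(a : ℝ) - b| := abs_pos.2 (sub_ne_zero.2 hne)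
  have := h _ (half_pos h1)
  linarith

theorem complete_T0 : IsComplete T0 := by
  refine ⟨⟨M0, fun φ hφ => hφ⟩, fun M N hM hN φ => ?_⟩
  obtain ⟨F, hF⟩ := exists_support φ
  refine eq_of_close fun ε hε => ?_
  obtain ⟨δ, hδ, h⟩ := hF ε hε
  exact h M N (gen_of_model hM) (gen_of_model hN) _ _ _ _
    ⟨fun a => a.elim, fun a => a.elim, fun i => i.elim0, fun a => a.elim, fun i => i.elim0⟩

end Pool.Agent.W879.CL
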