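import Pool.Agent.W879.CL.Defs

set_option autoImplicit false

open Cardinal
open scoped unitInterval

noncomputable section

namespace Pool.Agent.W879.CL

/-- one unary predicate symbol, no function symbols -/
def L0 : Signature where
  Fn := Empty
  fnArity := fun f => f.elim
  fnMod := fun f => f.elim
  fnMod_pos := fun f => f.elim
  Pr := Unit
  prArity := fun _ => 1
  prMod := fun _ ε => ε
  prMod_pos := fun _ _ h => h

/-- the value of the predicate -/
def PV (M : MStr L0) (x : M.X) : I := M.pr () (fun _ => x)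

/-- models of `T`: discrete, and the predicate has infinitely many points near each value -/
structure Gen (M : MStr L0) : Prop where
  disc : ∀ x y : M.X, dist x y = 0 ∨ dist x y = 1
  ext : ∀ (r : I) (ε : ℝ), 0 < ε → ∀ F : Set M.X, F.Finite → ∃ x, x ∉ F ∧ |(PV M x : ℝ) - r| < ε

variable {C : Type}

/-- similarity of two tuples -/
structure Sim (M N : MStr L0) (F : Finset C) (c : C → M.X) (c' : C → N.X) (δ : ℝ) {n : ℕ}
    (x : Fin n → M.X) (y : Fin n → N.X) : Prop where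
  cc : ∀ a ∈ F, ∀ b ∈ F, c a = c b ↔ c' a = c' b
  cx : ∀ a ∈ F, ∀ i, c a = x i ↔ c' a = y i
  xx : ∀ i j, x i = x j ↔ y i = y j
  pc : ∀ a ∈ F, |(PV M (c a) : ℝ) - PV N (c' a)| ≤ δ
  px : ∀ i, |(PV M (x i) : ℝ) - PV N (y i)| ≤ δ

theorem Sim.symm {M N : MStr L0} {F : Finset C} {c : C → M.X} {c' : C → N.X} {δ : ℝ} {n : ℕ}
    {x : Fin n → M.X} {y : Fin n → N.X} (h : Sim M N F c c' δ x y) : Sim N M F c' c δ y x where
  cc a ha b hb := (h.cc a ha b hb).symm
  cx a ha i := (h.cx a ha i).symm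
  xx i j := (h.xx i j).symm
  pc a ha := by rw [abs_sub_comm]; exact h.pc a ha
  px i := by rw [abs_sub_comm]; exact h.px i

theorem Sim.mono {M N : MStr L0} {F F' : Finset C} (hF : F' ⊆ F) {c : C → M.X} {c' : C → N.X}
    {δ δ' : ℝ} (hδ : δ ≤ δ') {n : ℕ}
    {x : Fin n → M.X} {y : Fin n → N.X} (h : Sim M N F c c' δ x y) : Sim M N F' c c' δ' x y where
  cc a ha b hb := h.cc a (hF ha) b (hF hb)
  cx a ha i := h.cx a (hF ha) i
  xx i j := h.xx i j
  pc a ha := (h.pc a (hF ha)).trans hδ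
  px i := (h.px i).trans hδ

theorem Sim.forth {M N : MStr L0} (hN : Gen N) {F : Finset C} {c : C → M.X} {c' : C → N.X}
    {δ : ℝ} (hδ : 0 < δ) {n : ℕ} {x : Fin n → M.X} {y : Fin n → N.X}
    (h : Sim M N F c c' δ x y) (a : M.X) :
    ∃ b : N.X, Sim M N F c c' δ (Fin.snoc (α := fun _ => M.X) x a)
      (Fin.snoc (α := fun _ => N.X) y b) := by
  classical
  have key : ∀ b : N.X, (∀ e ∈ F, c e = a ↔ c' e = b) → (∀ i, x i = a ↔ y i = b) →
      |(PV M a : ℝ) - PV N b| ≤ δ → Sim M N F c c' δ (Fin.snoc (α := fun _ => M.X) x a)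
      (Fin.snoc (α := fun _ => N.X) y b) := by
    intro b h1 h2 h3
    refine ⟨h.cc, ?_, ?_, h.pc, ?_⟩
    · intro e he i
      refine Fin.lastCases ?_ (fun i => ?_) i
      · simpa using h1 e he
      · simpa using h.cx e he i
    · intro i j
      refine Fin.lastCases ?_ (fun i => ?_) i
      · refine Fin.lastCases ?_ (fun j => ?_) j
        · simp
        · simp only [Fin.snoc_last, Fin.snoc_castSucc]
          rw [eq_comm, h2 j, eq_comm]
      · refine Fin.lastCases ?_ (fun j => ?_) j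
        · simpa using h2 i
        · simpa using h.xx i j
    · intro i
      refine Fin.lastCases ?_ (fun i => ?_) i
      · simpa using h3
      · simpa using h.px i
  by_cases hx : ∃ i, x i = a
  · obtain ⟨i, rfl⟩ := hx
    refine ⟨y i, key _ (fun e he => h.cx e he i) (fun j => h.xx j i) (h.px i)⟩
  by_cases hc : ∃ e ∈ F, c e = a
  · obtain ⟨e, he, rfl⟩ := hc
    refine ⟨c' e, key _ (fun e' he' => h.cc e' he' e he) (fun j => ?_) (h.pc e he)⟩
    rw [eq_comm, h.cx e he j, eq_comm]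
  push Not at hx hc
  obtain ⟨b, hb1, hb2⟩ := hN.ext (PV M a) δ hδ (Set.range y ∪ c' '' F)
    ((Set.finite_range y).union (F.finite_toSet.image c'))
  refine ⟨b, key b (fun e he => ?_) (fun i => ?_) ?_⟩
  · constructor
    · intro h'; exact absurd h' (hc e he)
    · rintro rfl; exact absurd (Or.inr ⟨e, he, rfl⟩) hb1
  · constructor
    · intro h'; exact absurd h' (hx i)
    · rintro rfl; exact absurd (Or.inl ⟨i, rfl⟩) hb1
  · rw [abs_sub_comm]; exact hb2.le

theorem Sim.back {M N : MStr L0} (hM : Gen M) {F : Finset C} {c : C → M.X} {c' : C → N.X}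
    {δ : ℝ} (hδ : 0 < δ) {n : ℕ} {x : Fin n → M.X} {y : Fin n → N.X}
    (h : Sim M N F c c' δ x y) (b : N.X) :
    ∃ a : M.X, Sim M N F c c' δ (Fin.snoc (α := fun _ => M.X) x a)
      (Fin.snoc (α := fun _ => N.X) y b) := by
  obtain ⟨a, ha⟩ := h.symm.forth hM hδ b
  exact ⟨a, ha.symm⟩

/-- the parameters of a term -/
def Tm.S {n : ℕ} : Tm L0 C n → Finset C
  | .var _ => ∅
  | .par a => {a}
  | .fn f _ => f.elim

theorem term_cases {n : ℕ} (t : Tm L0 C n) : (∃ i, t = .var i) ∨ ∃ a, t = .par a := by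
  cases t with
  | var i => exact Or.inl ⟨i, rfl⟩
  | par a => exact Or.inr ⟨a, rfl⟩
  | fn f _ => exact f.elim

theorem Sim.term_eq {M N : MStr L0} {F : Finset C} {c : C → M.X} {c' : C → N.X} {δ : ℝ} {n : ℕ}
    {x : Fin n → M.X} {y : Fin n → N.X} (h : Sim M N F c c' δ x y) {s t : Tm L0 C n}
    (hs : s.S ⊆ F) (ht : t.S ⊆ F) :
    s.val M c x = t.val M c x ↔ s.val N c' y = t.val N c' y := by
  rcases term_cases s with ⟨i, rfl⟩ | ⟨a, rfl⟩ <;> rcases term_cases t with ⟨j, rfl⟩ | ⟨b, rfl⟩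
  · exact h.xx i j
  · have hb : b ∈ F := ht (Finset.mem_singleton_self b)
    show x i = c b ↔ y i = c' b
    rw [eq_comm, h.cx b hb i, eq_comm]
  · have ha : a ∈ F := hs (Finset.mem_singleton_self a)
    exact h.cx a ha j
  · exact h.cc a (hs (Finset.mem_singleton_self a)) b (ht (Finset.mem_singleton_self b))

theorem Sim.term_pv {M N : MStr L0} {F : Finset C} {c : C → M.X} {c' : C → N.X} {δ : ℝ} {n : ℕ}
    {x : Fin n → M.X} {y : Fin n → N.X} (h : Sim M N F c c' δ x y) {s : Tm L0 C n}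
    (hs : s.S ⊆ F) : |(PV M (s.val M c x) : ℝ) - PV N (s.val N c' y)| ≤ δ := by
  rcases term_cases s with ⟨i, rfl⟩ | ⟨a, rfl⟩
  · exact h.px i
  · exact h.pc a (hs (Finset.mem_singleton_self a))

theorem iSup_close {α β : Type} [Nonempty α] [Nonempty β] (f : α → I) (g : β → I) (ε : ℝ)
    (hε : 0 ≤ ε)
    (h1 : ∀ a, ∃ b, |(f a : ℝ) - g b| ≤ ε) (h2 : ∀ b, ∃ a, |(f a : ℝ) - g b| ≤ ε) :
    |((⨆ a, f a : I) : ℝ) - (⨆ b, g b : I)| ≤ ε := by
  have hA : ((⨆ a, f a : I) : ℝ) ≤ (⨆ b, g b : I) + ε := by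
    by_contra hcon
    push Not at hcon
    have hpos : ((⨆ b, g b : I) : ℝ) + ε < 1 := hcon.trans_le (⨆ a, f a : I).2.2
    let z : I := ⟨(⨆ b, g b : I) + ε, add_nonneg (⨆ b, g b : I).2.1 hε, hpos.le⟩
    have hz : (⨆ a, f a : I) ≤ z := by
      refine iSup_le fun a => ?_
      obtain ⟨b, hb⟩ := h1 a
      have h3 : (g b : ℝ) ≤ (⨆ b, g b : I) := le_iSup g b
      show (f a : ℝ) ≤ (⨆ b, g b : I) + ε
      have := (abs_le.1 hb).2
      linarith
    have : ((⨆ a, f a : I) : ℝ) ≤ (⨆ b, g b : I) + ε := hz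
    linarith
  have hB : ((⨆ b, g b : I) : ℝ) ≤ (⨆ a, f a : I) + ε := by
    by_contra hcon
    push Not at hcon
    have hpos : ((⨆ b, f b : I) : ℝ) + ε < 1 := hcon.trans_le (⨆ a, g a : I).2.2
    let z : I := ⟨(⨆ b, f b : I) + ε, add_nonneg (⨆ b, f b : I).2.1 hε, hpos.le⟩
    have hz : (⨆ a, g a : I) ≤ z := by
      refine iSup_le fun b => ?_
      obtain ⟨a, hb⟩ := h2 b
      have h3 : (f a : ℝ) ≤ (⨆ b, f b : I) := le_iSup f a
      show (g b : ℝ) ≤ (⨆ b, f b : I) + ε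
      have := (abs_le.1 hb).1
      linarith
    have : ((⨆ a, g a : I) : ℝ) ≤ (⨆ b, f b : I) + ε := hz
    linarith
  rw [abs_le]
  constructor <;> linarith

theorem iInf_close {α β : Type} [Nonempty α] [Nonempty β] (f : α → I) (g : β → I) (ε : ℝ)
    (hε : 0 ≤ ε)
    (h1 : ∀ a, ∃ b, |(f a : ℝ) - g b| ≤ ε) (h2 : ∀ b, ∃ a, |(f a : ℝ) - g b| ≤ ε) :
    |((⨅ a, f a : I) : ℝ) - (⨅ b, g b : I)| ≤ ε := by
  have hA : ((⨅ b, g b : I) : ℝ) - ε ≤ (⨅ a, f a : I) := by
    by_contra hcon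
    push Not at hcon
    have hpos : 0 < ((⨅ b, g b : I) : ℝ) - ε := (⨅ a, f a : I).2.1.trans_lt hcon
    let z : I := ⟨(⨅ b, g b : I) - ε, hpos.le, by linarith [(⨅ b, g b : I).2.2]⟩
    have hz : z ≤ (⨅ a, f a : I) := by
      refine le_iInf fun a => ?_
      obtain ⟨b, hb⟩ := h1 a
      have h3 : ((⨅ b, g b : I) : ℝ) ≤ g b := iInf_le g b
      show ((⨅ b, g b : I) : ℝ) - ε ≤ (f a : ℝ)
      have := (abs_le.1 hb).1
      linarith
    have : ((⨅ b, g b : I) : ℝ) - ε ≤ (⨅ a, f a : I) := hz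
    linarith
  have hB : ((⨅ b, f b : I) : ℝ) - ε ≤ (⨅ a, g a : I) := by
    by_contra hcon
    push Not at hcon
    have hpos : 0 < ((⨅ b, f b : I) : ℝ) - ε := (⨅ a, g a : I).2.1.trans_lt hcon
    let z : I := ⟨(⨅ b, f b : I) - ε, hpos.le, by linarith [(⨅ b, f b : I).2.2]⟩
    have hz : z ≤ (⨅ a, g a : I) := by
      refine le_iInf fun b => ?_
      obtain ⟨a, hb⟩ := h2 b
      have h3 : ((⨅ b, f b : I) : ℝ) ≤ f a := iInf_le f a
      show ((⨅ b, f b : I) : ℝ) - ε ≤ (g b : ℝ)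
      have := (abs_le.1 hb).2
      linarith
    have : ((⨅ b, f b : I) : ℝ) - ε ≤ (⨅ a, g a : I) := hz
    linarith
  rw [abs_le]
  constructor <;> linarith

/-- the parameters of a formula -/
theorem exists_support {n : ℕ} (φ : Fm L0 C n) : ∃ F : Finset C, ∀ ε : ℝ, 0 < ε →
    ∃ δ : ℝ, 0 < δ ∧ ∀ M N : MStr L0, Gen M → Gen N → ∀ (c : C → M.X) (c' : C → N.X)
      (x : Fin n → M.X) (y : Fin n → N.X), Sim M N F c c' δ x y →
        |(φ.val M c x : ℝ) - φ.val N c' y| ≤ ε := by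
  classical
  induction φ with
  | dist s t =>
    refine ⟨s.S ∪ t.S, fun ε hε => ⟨1, one_pos, fun M N hM hN c c' x y h => ?_⟩⟩
    have h1 := h.term_eq (s := s) (t := t) Finset.subset_union_left Finset.subset_union_right
    show |dist (s.val M c x) (t.val M c x) - dist (s.val N c' y) (t.val N c' y)| ≤ ε
    by_cases he : s.val M c x = t.val M c x
    · rw [he, h1.1 he, dist_self, dist_self]
      simpa using hε.le
    · have h2 : dist (s.val M c x) (t.val M c x) = 1 :=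
        (hM.disc _ _).resolve_left fun h0 => he (dist_eq_zero.1 h0)
      have h3 : dist (s.val N c' y) (t.val N c' y) = 1 :=
        (hN.disc _ _).resolve_left fun h0 => he (h1.2 (dist_eq_zero.1 h0))
      rw [h2, h3]
      simpa using hε.le
  | pr P ts =>
    let z0 : Fin (L0.prArity P) := (0 : Fin 1)
    refine ⟨(ts z0).S, fun ε hε => ⟨ε, hε, fun M N hM hN c c' x y h => ?_⟩⟩
    have h1 := h.term_pv (s := ts z0) (Finset.Subset.refl _)
    have e1 : (fun i => (ts i).val M c x) = fun _ => (ts z0).val M c x := by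
      funext i
      rw [show i = z0 from Subsingleton.elim (α := Fin 1) _ _]
    have e2 : (fun i => (ts i).val N c' y) = fun _ => (ts z0).val N c' y := by
      funext i
      rw [show i = z0 from Subsingleton.elim (α := Fin 1) _ _]
    show |(M.pr P (fun i => (ts i).val M c x) : ℝ) - N.pr P (fun i => (ts i).val N c' y)| ≤ ε
    rw [e1, e2]
    exact h1
  | @conn n k u φ ih =>
    choose F hF using ih
    refine ⟨Finset.univ.biUnion F, fun ε hε => ?_⟩
    have hu : UniformContinuous u := CompactSpace.uniformContinuous_of_continuous u.continuous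
    obtain ⟨η, hη, hu⟩ := Metric.uniformContinuous_iff.1 hu ε hε
    choose δ hδ0 hδ using fun i => hF i (η / 2) (half_pos hη)
    obtain ⟨δ0, h0, h0'⟩ : ∃ δ0 : ℝ, 0 < δ0 ∧ ∀ i, δ0 ≤ δ i := by
      rcases isEmpty_or_nonempty (Fin k) with he | he
      · exact ⟨1, one_pos, fun i => he.elim i⟩
      · obtain ⟨i, hi⟩ := Finite.exists_min δ
        exact ⟨δ i, hδ0 i, hi⟩
    refine ⟨δ0, h0, fun M N hM hN c c' x y h => ?_⟩
    have h1 : dist (fun i => (φ i).val M c x) (fun i => (φ i).val N c' y) < η := by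
      refine lt_of_le_of_lt ((dist_pi_le_iff (half_pos hη).le).2 fun i => ?_) (half_lt_self hη)
      exact hδ i M N hM hN c c' x y (h.mono (Finset.subset_biUnion_of_mem F (Finset.mem_univ i)) (h0' i))
    exact (hu h1).le
  | sup φ ih =>
    obtain ⟨F, hF⟩ := ih
    refine ⟨F, fun ε hε => ?_⟩
    obtain ⟨δ, hδ0, hδ⟩ := hF ε hε
    refine ⟨δ, hδ0, fun M N hM hN c c' x y h => ?_⟩
    refine iSup_close _ _ ε hε.le (fun a => ?_) (fun b => ?_)
    · obtain ⟨b, hb⟩ := h.forth hN hδ0 a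
      exact ⟨b, hδ M N hM hN c c' _ _ hb⟩
    · obtain ⟨a, ha⟩ := h.back hM hδ0 b
      exact ⟨a, hδ M N hM hN c c' _ _ ha⟩
  | inf φ ih =>
    obtain ⟨F, hF⟩ := ih
    refine ⟨F, fun ε hε => ?_⟩
    obtain ⟨δ, hδ0, hδ⟩ := hF ε hε
    refine ⟨δ, hδ0, fun M N hM hN c c' x y h => ?_⟩
    refine iInf_close _ _ ε hε.le (fun a => ?_) (fun b => ?_)
    · obtain ⟨b, hb⟩ := h.forth hN hδ0 a
      exact ⟨b, hδ M N hM hN c c' _ _ hb⟩
    · obtain ⟨a, ha⟩ := h.back hM hδ0 b
      exact ⟨a, hδ M N hM hN c c' _ _ ha⟩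

end Pool.Agent.W879.CL
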