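import Pool.Agent.W879.CL.Model

set_option autoImplicit false

open Cardinal Filter
open scoped unitInterval

noncomputable section

namespace Pool.Agent.W879.CL

/-! ### Change of parameters -/

section

variable {L : Signature} {C C' : Type}

/-- replace the parameters -/
def Tm.mp (g : C → C') {n : ℕ} : Tm L C n → Tm L C' n
  | .var i => .var i
  | .par a => .par (g a)
  | .fn f ts => .fn f fun i => (ts i).mp g

/-- replace the parameters -/
def Fm.mp (g : C → C') : {n : ℕ} → Fm L C n → Fm L C' n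
  | _, .dist s t => .dist (s.mp g) (t.mp g)
  | _, .pr P ts => .pr P fun i => (ts i).mp g
  | _, .conn u φ => .conn u fun i => (φ i).mp g
  | _, .sup φ => .sup (φ.mp g)
  | _, .inf φ => .inf (φ.mp g)

theorem Tm.val_mp (g : C → C') (M : MStr L) (c : C' → M.X) {n : ℕ} (x : Fin n → M.X)
    (t : Tm L C n) : (t.mp g).val M c x = t.val M (c ∘ g) x := by
  induction t with
  | var i => rfl
  | par a => rfl
  | fn f ts ih =>
    show M.fn f (fun i => ((ts i).mp g).val M c x) = M.fn f fun i => (ts i).val M (c ∘ g) x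
    congr 1
    funext i
    exact ih i

theorem Fm.val_mp (g : C → C') (M : MStr L) (c : C' → M.X) {n : ℕ} (φ : Fm L C n) :
    ∀ x : Fin n → M.X, (φ.mp g).val M c x = φ.val M (c ∘ g) x := by
  induction φ with
  | dist s t =>
    intro x
    apply Subtype.ext
    show Dist.dist ((s.mp g).val M c x) ((t.mp g).val M c x) = _
    rw [Tm.val_mp, Tm.val_mp]
    rfl
  | pr P ts =>
    intro x
    show M.pr P (fun i => ((ts i).mp g).val M c x) = M.pr P fun i => (ts i).val M (c ∘ g) x
    congr 1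
    funext i
    exact Tm.val_mp g M c x _
  | conn u φ ih =>
    intro x
    show u (fun i => ((φ i).mp g).val M c x) = u fun i => (φ i).val M (c ∘ g) x
    congr 1
    funext i
    exact ih i x
  | sup φ ih =>
    intro x
    exact iSup_congr fun a => ih _
  | inf φ ih =>
    intro x
    exact iInf_congr fun a => ih _

theorem Ext.isModel {M : MStr L} {A : Set M.X} (E : Ext M A) {T : Set (Fm L Empty 0)}
    (hM : IsModel T M) : IsModel T E.N := by
  intro φ hφ
  have h1 := E.elem (φ.mp Empty.elim)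
  rw [Fm.val_mp, Fm.val_mp] at h1
  have e1 : E.i ∘ (Empty.elim : Empty → A) = Empty.elim := funext fun a => a.elim
  have e2 : (Subtype.val : A → M.X) ∘ (Empty.elim : Empty → A) = Empty.elim :=
    funext fun a => a.elim
  rw [e1, e2] at h1
  show φ.val E.N Empty.elim Fin.elim0 = 0
  rw [h1]
  exact hM φ hφ

theorem Ext.dist_eq {M : MStr L} {A : Set M.X} (E : Ext M A) (a b : A) :
    dist (E.i a) (E.i b) = dist a.1 b.1 := by
  have h1 := E.elem (.dist (.par a) (.par b))
  exact congrArg Subtype.val h1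

theorem Ext.inj {M : MStr L} {A : Set M.X} (E : Ext M A) (a b : A) : E.i a = E.i b ↔ a = b := by
  rw [← dist_eq_zero, E.dist_eq, dist_eq_zero, Subtype.ext_iff]

end

theorem Ext.pv {M : MStr L0} {A : Set M.X} (E : Ext M A) (a : A) : PV E.N (E.i a) = PV M a.1 :=
  E.elem (.pr () fun _ => .par a)

/-! ### Counting types -/

open Classical in
/-- the data that determine a type -/
def data {M : MStr L0} {A : Set M.X} (E : Ext M A) {n : ℕ} (x : Fin n → E.N.X) :
    (Fin n → Option A) × (Fin n → Fin n → Prop) × (Fin n → I) :=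
  (fun i => if h : ∃ a, E.i a = x i then some h.choose else none, fun i j => x i = x j,
    fun i => PV E.N (x i))

theorem data_iff {M : MStr L0} {A : Set M.X} (E : Ext M A) {n : ℕ} (x : Fin n → E.N.X) (a : A)
    (i : Fin n) : E.i a = x i ↔ (data E x).1 i = some a := by
  classical
  show _ ↔ (if h : ∃ a, E.i a = x i then some h.choose else none) = some a
  split_ifs with h
  · rw [Option.some_inj]
    constructor
    · intro h1
      rw [← E.inj, h.choose_spec, h1]
    · intro h1
      rw [← h1, h.choose_spec]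
  · constructor
    · intro h1
      exact absurd ⟨a, h1⟩ h
    · intro h1
      exact absurd h1 (by simp)

theorem tp_eq_of_data {M : MStr L0} (hM : IsModel T0 M) {A : Set M.X} (E E' : Ext M A) {n : ℕ}
    (x : Fin n → E.N.X) (y : Fin n → E'.N.X) (h : data E x = data E' y) : E.tp x = E'.tp y := by
  funext φ
  obtain ⟨F, hF⟩ := exists_support φ
  refine eq_of_close fun ε hε => ?_
  obtain ⟨δ, hδ, hS⟩ := hF ε hε
  refine hS E.N E'.N (gen_of_model (E.isModel hM)) (gen_of_model (E'.isModel hM)) _ _ _ _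
    ⟨fun a _ b _ => by rw [E.inj, E'.inj], fun a _ i => by rw [data_iff, data_iff, h],
      fun i j => ?_, fun a _ => ?_, fun i => ?_⟩
  · have := congrFun (congrFun (congrArg (fun d => d.2.1) h) i) j
    exact iff_of_eq this
  · rw [E.pv, E'.pv, sub_self, abs_zero]
    exact hδ.le
  · have : PV E.N (x i) = PV E'.N (y i) := congrFun (congrArg (fun d => d.2.2) h) i
    rw [this, sub_self, abs_zero]
    exact hδ.le

theorem mk_I : #I = 𝔠 := Cardinal.mk_Icc_real one_pos

theorem mk_types_le {M : MStr L0} (hM : IsModel T0 M) (A : Set M.X) {lam : Cardinal.{0}}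
    (h1 : 2 ^ ℵ₀ ≤ lam) (hA : #A ≤ lam) (n : ℕ) : #(Types M A n) ≤ lam := by
  classical
  have h0 : ℵ₀ ≤ lam := (Cardinal.cantor ℵ₀).le.trans h1
  choose E x hx using fun p : Types M A n => p.2
  have hinj : Function.Injective fun p : Types M A n => data (E p) (x p) := by
    intro p q hpq
    apply Subtype.ext
    rw [← hx p, ← hx q]
    exact tp_eq_of_data hM _ _ _ _ hpq
  refine (Cardinal.mk_le_of_injective hinj).trans ?_
  rw [Cardinal.mk_prod, Cardinal.mk_prod, Cardinal.lift_id, Cardinal.lift_id, Cardinal.lift_id,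
    Cardinal.lift_id]
  have e1 : #(Fin n → Option A) ≤ lam := by
    rw [← Cardinal.power_def, Cardinal.mk_fin, Cardinal.mk_option]
    have h2 : #A + 1 ≤ lam := (add_le_add hA (Cardinal.one_le_aleph0.trans h0)).trans
      (Cardinal.add_eq_self h0).le
    refine (Cardinal.power_le_power_right h2).trans ?_
    exact Cardinal.power_nat_le h0
  have e2 : #(Fin n → Fin n → Prop) ≤ lam := (Cardinal.lt_aleph0_of_finite _).le.trans h0
  have e3 : #(Fin n → I) ≤ lam := by
    rw [← Cardinal.power_def, Cardinal.mk_fin, mk_I]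
    refine (Cardinal.power_nat_le (Cardinal.aleph0_le_continuum)).trans ?_
    rw [← Cardinal.two_power_aleph0]
    exact h1
  calc #(Fin n → Option A) * (#(Fin n → Fin n → Prop) * #(Fin n → I)) ≤ lam * (lam * lam) :=
        mul_le_mul' e1 (mul_le_mul' e2 e3)
    _ = lam := by rw [Cardinal.mul_eq_self h0, Cardinal.mul_eq_self h0]

theorem card_le_of_dens {M : MStr L0} (hM : Gen M) {A : Set M.X} {lam : Cardinal.{0}}
    (h : DensLe A lam) : #A ≤ lam := by
  obtain ⟨D, hD, hc, hA⟩ := h
  refine (Cardinal.mk_le_mk_of_subset fun a ha => ?_).trans hc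
  obtain ⟨d, hd, h1⟩ := Metric.mem_closure_iff.1 (hA ha) 1 one_pos
  rcases hM.disc a d with h2 | h2
  · rw [dist_eq_zero.1 h2]
    exact hd
  · rw [h2] at h1
    exact absurd h1 (lt_irrefl _)

theorem stableIn_T0 {lam : Cardinal.{0}} (h1 : 2 ^ ℵ₀ ≤ lam) : StableIn T0 lam := by
  intro M hM A hA n
  refine ⟨Types M A n, le_rfl, mk_types_le hM A h1 (card_le_of_dens (gen_of_model hM) hA) n,
    fun p hp ε hε => ⟨p, hp, ?_⟩⟩
  obtain ⟨E, x, hx⟩ := hp
  refine lt_of_le_of_lt ?_ hε
  refine (iInf_le_of_le E (iInf_le_of_le x (iInf_le_of_le x (iInf_le_of_le hx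
    (iInf_le_of_le hx ?_)))))
  exact (edist_self x).le

/-! ### No order property -/

theorem swap_eq {X : Type} (U : Ultrafilter ℕ) (f g : ℕ → X)
    (h : ∀ᶠ i in (U : Filter ℕ), ∀ᶠ j in (U : Filter ℕ), f i = g j) :
    ∀ᶠ j in (U : Filter ℕ), ∀ᶠ i in (U : Filter ℕ), f i = g j := by
  obtain ⟨i0, hi0⟩ := h.exists
  have h1 : ∀ᶠ i in (U : Filter ℕ), f i = f i0 := by
    filter_upwards [h] with i hi
    obtain ⟨j, hj1, hj2⟩ := (hi.and hi0).exists
    rw [hj1, hj2]
  filter_upwards [hi0] with j hj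
  filter_upwards [h1] with i hi
  rw [hi, hj]

theorem cross {X : Type} (U : Ultrafilter ℕ) (f g : ℕ → X) :
    ∀ᶠ i in (U : Filter ℕ), ∀ᶠ j in (U : Filter ℕ),
      (f i = g j ↔ ∀ᶠ i in (U : Filter ℕ), ∀ᶠ j in (U : Filter ℕ), f i = g j) := by
  by_cases h : ∀ᶠ i in (U : Filter ℕ), ∀ᶠ j in (U : Filter ℕ), f i = g j
  · filter_upwards [h] with i hi
    filter_upwards [hi] with j hj
    exact iff_of_true hj h
  · have h1 := Ultrafilter.eventually_not.2 h
    filter_upwards [h1] with i hi
    have h2 := Ultrafilter.eventually_not.2 hi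
    filter_upwards [h2] with j hj
    exact iff_of_false hj h

theorem cross' {X : Type} (U : Ultrafilter ℕ) (f g : ℕ → X) :
    ∀ᶠ j in (U : Filter ℕ), ∀ᶠ i in (U : Filter ℕ),
      (f i = g j ↔ ∀ᶠ i in (U : Filter ℕ), ∀ᶠ j in (U : Filter ℕ), f i = g j) := by
  have h := cross U g f
  have e : (∀ᶠ i in (U : Filter ℕ), ∀ᶠ j in (U : Filter ℕ), f i = g j) ↔
      ∀ᶠ i in (U : Filter ℕ), ∀ᶠ j in (U : Filter ℕ), g i = f j := by
    constructor
    · intro h1
      have := swap_eq U f g h1
      filter_upwards [this] with j hj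
      filter_upwards [hj] with i hi
      exact hi.symm
    · intro h1
      have := swap_eq U g f h1
      filter_upwards [this] with j hj
      filter_upwards [hj] with i hi
      exact hi.symm
  rw [e]
  filter_upwards [h] with j hj
  filter_upwards [hj] with i hi
  rw [eq_comm]
  exact hi

theorem near {U : Ultrafilter ℕ} (f : ℕ → I) : ∃ r : I, ∀ δ : ℝ, 0 < δ →
    ∀ᶠ i in (U : Filter ℕ), |(f i : ℝ) - r| < δ := by
  obtain ⟨r, -, hr⟩ := isCompact_univ.ultrafilter_le_nhds (U.map f) (by simp)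
  refine ⟨r, fun δ hδ => ?_⟩
  have h1 : Metric.ball r δ ∈ nhds r := Metric.ball_mem_nhds r hδ
  have h2 := hr h1
  exact h2

theorem append_left_eq {X : Type} {n m : ℕ} (a : Fin n → X) (b : Fin m → X) (i : Fin n) :
    Fin.append a b (Fin.castAdd m i) = a i := Fin.append_left a b i

theorem stableFormula_T0 {n m : ℕ} (φ : Fm L0 Empty (n + m)) : StableFormula T0 φ := by
  intro M hM a b r s hrs hord
  obtain ⟨F, hF⟩ := exists_support φ
  obtain ⟨δ, hδ, hS⟩ := hF ((s - r) / 2) (by linarith)
  have hG := gen_of_model hM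
  let U : Ultrafilter ℕ := hyperfilter ℕ
  have hgt : ∀ i : ℕ, ∀ᶠ j in (U : Filter ℕ), i < j := by
    intro i
    have h1 : (U : Filter ℕ) ≤ cofinite := hyperfilter_le_cofinite
    refine h1 ?_
    rw [mem_cofinite]
    exact (Set.finite_Iic i).subset fun j hj => by
      simpa using hj
  choose ra hra using fun k : Fin n => near (U := U) fun i => PV M (a i k)
  choose rb hrb using fun k : Fin m => near (U := U) fun i => PV M (b i k)
  -- good indices
  let PA : ℕ → Prop := fun i => (∀ k k' : Fin n, a i k = a i k' ↔ ∀ᶠ i in (U : Filter ℕ),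
    a i k = a i k') ∧ ∀ k, |(PV M (a i k) : ℝ) - ra k| < δ / 2
  let PB : ℕ → Prop := fun i => (∀ k k' : Fin m, b i k = b i k' ↔ ∀ᶠ i in (U : Filter ℕ),
    b i k = b i k') ∧ ∀ k, |(PV M (b i k) : ℝ) - rb k| < δ / 2
  have hdec : ∀ (f g : ℕ → M.X), ∀ᶠ i in (U : Filter ℕ),
      (f i = g i ↔ ∀ᶠ i in (U : Filter ℕ), f i = g i) := by
    intro f g
    by_cases h : ∀ᶠ i in (U : Filter ℕ), f i = g i
    · filter_upwards [h] with i hi
      exact iff_of_true hi h
    · filter_upwards [Ultrafilter.eventually_not.2 h] with i hi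
      exact iff_of_false hi h
  have hPA : ∀ᶠ i in (U : Filter ℕ), PA i := by
    refine (eventually_all.2 fun k => eventually_all.2 fun k' => hdec _ _).and
      (eventually_all.2 fun k => hra k _ (half_pos hδ))
  have hPB : ∀ᶠ i in (U : Filter ℕ), PB i := by
    refine (eventually_all.2 fun k => eventually_all.2 fun k' => hdec _ _).and
      (eventually_all.2 fun k => hrb k _ (half_pos hδ))
  let E : Fin n → Fin m → Prop := fun k l =>
    ∀ᶠ i in (U : Filter ℕ), ∀ᶠ j in (U : Filter ℕ), a i k = b j l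
  have hc1 : ∀ᶠ i in (U : Filter ℕ), ∀ k l, ∀ᶠ j in (U : Filter ℕ), (a i k = b j l ↔ E k l) :=
    eventually_all.2 fun k => eventually_all.2 fun l => cross U (fun i => a i k) fun j => b j l
  have hc2 : ∀ᶠ j in (U : Filter ℕ), ∀ k l, ∀ᶠ i in (U : Filter ℕ), (a i k = b j l ↔ E k l) :=
    eventually_all.2 fun k => eventually_all.2 fun l => cross' U (fun i => a i k) fun j => b j l
  obtain ⟨i, hi1, hi2⟩ := (hPA.and hc1).exists
  obtain ⟨j, ⟨hj1, hj2⟩, hij⟩ := ((hPB.and (eventually_all.2 fun k => eventually_all.2 fun l =>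
    hi2 k l)).and (hgt i)).exists
  obtain ⟨j', hj1', hj2'⟩ := (hPB.and hc2).exists
  obtain ⟨i', ⟨hi1', hi2'⟩, hij'⟩ := ((hPA.and (eventually_all.2 fun k => eventually_all.2 fun l =>
    hj2' k l)).and (hgt j')).exists
  have hsim : Sim M M F Empty.elim Empty.elim δ (Fin.append (a i) (b j))
      (Fin.append (a i') (b j')) := by
    refine ⟨fun a => a.elim, fun a => a.elim, fun k l => ?_, fun a => a.elim, fun k => ?_⟩
    · refine Fin.addCases (fun k => ?_) (fun k => ?_) k <;>
        refine Fin.addCases (fun l => ?_) (fun l => ?_) l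
      · simp only [Fin.append_left]
        rw [hi1.1, hi1'.1]
      · simp only [Fin.append_left, Fin.append_right]
        rw [hj2, hi2']
      · simp only [Fin.append_left, Fin.append_right]
        rw [eq_comm, hj2, eq_comm (a := b j' k), hi2']
      · simp only [Fin.append_right]
        rw [hj1.1, hj1'.1]
    · refine Fin.addCases (fun k => ?_) (fun k => ?_) k
      · simp only [Fin.append_left]
        have h1 := hi1.2 k
        have h2 := hi1'.2 k
        rw [abs_lt] at h1 h2
        rw [abs_le]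
        constructor <;> linarith
      · simp only [Fin.append_right]
        have h1 := hj1.2 k
        have h2 := hj1'.2 k
        rw [abs_lt] at h1 h2
        rw [abs_le]
        constructor <;> linarith
  have h1 := hS M M hG hG _ _ _ _ hsim
  have h2 := (hord i j hij).1
  have h3 := (hord j' i' hij').2
  rw [abs_le] at h1
  linarith

/-! ### Definable sets -/

/-- the points with number zero -/
def pt (r : I) : Fin 1 → M0.X := fun _ => (⟨r, 0⟩ : Pt)

theorem dist_M0_one {x y : Fin 1 → M0.X} (h : x ≠ y) : dist x y = 1 := by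
  have h1 : x 0 ≠ y 0 := by
    intro h2
    apply h
    funext i
    rw [Subsingleton.elim i 0, h2]
  have h2 : dist x y = dist (x 0) (y 0) := by
    rw [dist_pi_def]
    simp
  rw [h2]
  rcases pt_disc (x 0) (y 0) with h3 | h3
  · exact absurd (dist_eq_zero.1 h3) h1
  · exact h3

theorem infDist_cases {D : Set (Fin 1 → M0.X)} (hne : D.Nonempty) (x : Fin 1 → M0.X) :
    (x ∈ D ∧ Metric.infDist x D = 0) ∨ (x ∉ D ∧ Metric.infDist x D = 1) := by
  by_cases hx : x ∈ D
  · exact Or.inl ⟨hx, Metric.infDist_zero_of_mem hx⟩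
  · refine Or.inr ⟨hx, le_antisymm ?_ ?_⟩
    · obtain ⟨y, hy⟩ := hne
      refine (Metric.infDist_le_dist_of_mem hy).trans (le_of_eq ?_)
      exact dist_M0_one fun h => hx (by rw [h]; exact hy)
    · refine (Metric.le_infDist hne).2 fun y hy => ?_
      exact (dist_M0_one fun h => hx (by rw [h]; exact hy)).ge

/-- a `d`-definable set over `∅` contains all or none of the points `pt r` -/
theorem trivial_of_definable {D : Set (Fin 1 → M0.X)} (hne : D.Nonempty)
    (hD : DDefinable M0 ∅ D) (r s : I) (hr : pt r ∈ D) : pt s ∈ D := by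
  obtain ⟨φ, hφ⟩ := hD.2 (1 / 4) (by norm_num)
  obtain ⟨F, hF⟩ := exists_support φ
  obtain ⟨δ, hδ, hS⟩ := hF (1 / 4) (by norm_num)
  have hF0 : ∀ a : (∅ : Set M0.X), False := fun a => a.2
  have key : ∀ r s : I, |(r : ℝ) - s| ≤ δ → (pt r ∈ D ↔ pt s ∈ D) := by
    intro r s hrs
    have h1 := hS M0 M0 gen_M0 gen_M0 Subtype.val Subtype.val (pt r) (pt s)
      ⟨fun a => (hF0 a).elim, fun a => (hF0 a).elim, fun i j => iff_of_true rfl rfl,
        fun a => (hF0 a).elim, fun i => hrs⟩
    have h2 : |Metric.infDist (pt r) D - _| ≤ 1 / 4 := hφ (pt r)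
    have h3 : |Metric.infDist (pt s) D - _| ≤ 1 / 4 := hφ (pt s)
    rw [abs_le] at h1 h2 h3
    rcases infDist_cases hne (pt r) with ⟨h4, h5⟩ | ⟨h4, h5⟩ <;>
      rcases infDist_cases hne (pt s) with ⟨h6, h7⟩ | ⟨h6, h7⟩
    · exact iff_of_true h4 h6
    · exfalso
      rw [h5] at h2
      rw [h7] at h3
      linarith
    · exfalso
      rw [h5] at h2
      rw [h7] at h3
      linarith
    · exact iff_of_false h4 h6
  -- connectedness of the unit interval
  have hopen : ∀ (S : Set I), (∀ r s : I, |(r : ℝ) - s| ≤ δ → (r ∈ S ↔ s ∈ S)) → IsOpen S := by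
    intro S h
    rw [Metric.isOpen_iff]
    intro r hr
    refine ⟨δ, hδ, fun s hs => ?_⟩
    rw [Metric.mem_ball, Subtype.dist_eq, Real.dist_eq] at hs
    exact (h s r hs.le).2 hr
  let S : Set I := {r | pt r ∈ D}
  have hS1 : IsClopen S := by
    refine ⟨⟨hopen _ fun r s h => ?_⟩, hopen _ key⟩
    exact not_congr (key r s h)
  have hpre : IsPreconnected (Set.univ : Set I) := isPreconnected_univ
  have h1 : S = Set.univ := by
    rcases isClopen_iff.1 hS1 with h | h
    · have : r ∈ S := hr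
      rw [h] at this
      exact absurd this (Set.notMem_empty r)
    · exact h
  have : s ∈ S := by rw [h1]; trivial
  exact this

theorem not_enough_T0 : ¬ EnoughDDefinable T0 := by
  intro h
  have hM : IsModel T0 M0 := fun φ hφ => hφ
  let E0 : Ext M0 ∅ := ⟨M0, Subtype.val, fun φ => rfl⟩
  obtain ⟨𝒟, h1, h2⟩ := h M0 hM ∅ 1 (tpIn M0 ∅ (pt 0)) ⟨E0, pt 0, rfl⟩
  have h3 : pt 0 ∈ ⋂₀ 𝒟 := by
    rw [← h2]
    exact rfl
  have h4 : pt 1 ∈ ⋂₀ 𝒟 := by
    intro D hD
    exact trivial_of_definable ⟨_, h3 D hD⟩ (h1 D hD) 0 1 (h3 D hD)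
  rw [← h2] at h4
  have h5 : tpIn M0 ∅ (pt 1) (.pr () fun _ => .var 0) = tpIn M0 ∅ (pt 0) (.pr () fun _ => .var 0) :=
    congrFun h4 _
  have h6 : (1 : I) = 0 := h5
  exact one_ne_zero h6

end Pool.Agent.W879.CL
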